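import Pool.Agent.H56.E.Base
import Pool.Agent.H56.E.H56.G3.TI

/-!
# Theorem (G), section 3b: the functional on the window of `t - l p`
-/

set_option autoImplicit false

open Finset Pool.Agent.H6.N4D Pool.Agent.H78.GX.H6.N4D Pool.Agent.H93.EB Pool.Agent.H93.GS Pool.Agent.H56.G3 Pool.Agent.H56.E.H56.G3

namespace Pool.Agent.H56.E.H80.G3

open Pool.Agent.H80.G3

lemma sum_Ioc_le {f : ℕ → ℝ} {b : ℝ} (hf : ∀ m, |f m| ≤ b) {x y : ℕ} (h : x ≤ y) :
    |∑ m ∈ Ioc x y, f m| ≤ ((y : ℝ) - x) * b := by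
  refine (Finset.abs_sum_le_sum_abs _ _).trans ?_
  refine (Finset.sum_le_card_nsmul _ _ b fun m _ => hf m).trans ?_
  rw [Nat.card_Ioc, nsmul_eq_mul, Nat.cast_sub h]

lemma sum_Ioc_diff {f : ℕ → ℝ} {b : ℝ} (hf : ∀ m, |f m| ≤ b) (x y : ℕ) :
    |∑ m ∈ Ioc 0 x, f m - ∑ m ∈ Ioc 0 y, f m| ≤ |(x : ℝ) - y| * b := by
  have key : ∀ u v : ℕ, u ≤ v →
      |∑ m ∈ Ioc 0 v, f m - ∑ m ∈ Ioc 0 u, f m| ≤ ((v : ℝ) - u) * b := by
    intro u v huv
    have h1 := Finset.sum_Ioc_consecutive f (Nat.zero_le u) huv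
    have h2 : ∑ m ∈ Ioc 0 v, f m - ∑ m ∈ Ioc 0 u, f m = ∑ m ∈ Ioc u v, f m := by linarith
    rw [h2]
    exact sum_Ioc_le hf huv
  rcases le_total x y with h | h
  · have h1 := key x y h
    rw [abs_sub_comm, abs_sub_comm (x : ℝ)]
    rw [abs_of_nonneg (a := (y : ℝ) - x) (by have : (x : ℝ) ≤ y := by exact_mod_cast h
                                             linarith)]
    exact h1
  · have h1 := key y x h
    rw [abs_of_nonneg (a := (x : ℝ) - y) (by have : (y : ℝ) ≤ x := by exact_mod_cast h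
                                             linarith)]
    exact h1

lemma sum_Ioc_two {f : ℕ → ℝ} {b : ℝ} (hf : ∀ m, |f m| ≤ b) {u v u' v' : ℕ} (h : u ≤ v)
    (h' : u' ≤ v') : |∑ m ∈ Ioc u v, f m - ∑ m ∈ Ioc u' v', f m| ≤
      (|(u : ℝ) - u'| + |(v : ℝ) - v'|) * b := by
  have h1 := Finset.sum_Ioc_consecutive f (Nat.zero_le u) h
  have h2 := Finset.sum_Ioc_consecutive f (Nat.zero_le u') h'
  have h3 := sum_Ioc_diff hf u u'
  have h4 := sum_Ioc_diff hf v v'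
  have h5 : ∑ m ∈ Ioc u v, f m - ∑ m ∈ Ioc u' v', f m =
      (∑ m ∈ Ioc 0 v, f m - ∑ m ∈ Ioc 0 v', f m) - (∑ m ∈ Ioc 0 u, f m - ∑ m ∈ Ioc 0 u', f m) := by
    linarith
  rw [h5]
  refine (abs_sub _ _).trans ?_
  linarith

lemma sum_mult (F : ℕ → ℝ) {p : ℕ} (hp : 0 < p) (n N : ℕ) :
    ∑ m ∈ (Ioc n (n + N)).filter (fun m => p ∣ m), F m =
      ∑ m ∈ Ioc (n / p) ((n + N) / p), F (p * m) := by
  symm
  apply Finset.sum_bij (fun m _ => p * m)
  · intro m hm
    rw [Finset.mem_Ioc] at hm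
    rw [Finset.mem_filter, Finset.mem_Ioc]
    refine ⟨⟨?_, ?_⟩, Dvd.intro _ rfl⟩
    · rw [mul_comm]
      exact (Nat.div_lt_iff_lt_mul hp).1 hm.1
    · rw [mul_comm]
      exact (Nat.le_div_iff_mul_le hp).1 hm.2
  · intro m _ m' _ h
    exact Nat.eq_of_mul_eq_mul_left hp h
  · intro m hm
    rw [Finset.mem_filter, Finset.mem_Ioc] at hm
    obtain ⟨⟨h1, h2⟩, k, rfl⟩ := hm
    refine ⟨k, ?_, rfl⟩
    rw [Finset.mem_Ioc]
    constructor
    · rw [Nat.div_lt_iff_lt_mul hp, mul_comm]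
      exact h1
    · rw [Nat.le_div_iff_mul_le hp, mul_comm]
      exact h2
  · intro m _
    rfl

lemma pb_f (p : ℕ) (g : Ex) (m : ℕ) : (pb p g).f m = - g.f (p * m) := by
  unfold Ex.f pb
  rw [← Finset.sum_neg_distrib]
  apply Finset.sum_congr rfl
  intro i _
  have h : (p : ℝ) * g.a i * (m : ℝ) = g.a i * ((p * m : ℕ) : ℝ) := by push_cast; ring
  simp only [h, neg_mul]

lemma pb_nm (p : ℕ) (g : Ex) : (pb p g).nm = g.nm := by
  unfold Ex.nm pb
  simp

lemma integrand {lam : ℕ → ℝ} (hl : Lio lam) {p : ℕ} (hp : p.Prime) (g : Ex) {m : ℕ}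
    (hm : 1 ≤ m) : 2 * lam m * ((pb p g).f m).re - ‖(pb p g).f m‖ ^ 2 = jj lam g (p * m) := by
  unfold jj
  rw [pb_f, norm_neg, Complex.neg_re, hl.pr p m hp hm]
  ring

theorem core {th : ℝ} {lam : ℕ → ℝ} {p N n N' n' : ℕ} (hl : Lio lam) (hp : p.Prime)
    (hN : 1 ≤ N) (hN' : 1 ≤ N') {g : Ex} {b : ℝ} (hb : ∀ m, |jj lam g m| ≤ b)
    (h1 : |(p : ℝ) * n' - n| ≤ 3 * p) (h2 : |(p : ℝ) * N' - N| ≤ 3 * p) :
    |J th lam 1 N' n' (pb p g) - J th lam p N n g| ≤ 12 * b * (p / N) := by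
  have hp0 : (0 : ℝ) < p := by exact_mod_cast hp.pos
  have hNr : (0 : ℝ) < N := by exact_mod_cast hN
  have hNr' : (0 : ℝ) < N' := by exact_mod_cast hN'
  have hb0 : 0 ≤ b := (abs_nonneg _).trans (hb 0)
  set f : ℕ → ℝ := fun m => jj lam g (p * m) with hf
  have hfb : ∀ m, |f m| ≤ b := fun m => hb _
  have e1 : ar 1 N' n' (fun m => 2 * lam m * ((pb p g).f m).re - ‖(pb p g).f m‖ ^ 2) =
      (∑ m ∈ Ioc n' (n' + N'), f m) / N' := by
    unfold ar
    rw [Finset.filter_true_of_mem (fun m _ => one_dvd m), Nat.cast_one, mul_one]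
    congr 1
    apply Finset.sum_congr rfl
    intro m hm
    rw [Finset.mem_Ioc] at hm
    exact integrand hl hp g (by omega)
  have e2 : ar p N n (fun m => 2 * lam m * (g.f m).re - ‖g.f m‖ ^ 2) =
      (∑ m ∈ Ioc (n / p) ((n + N) / p), f m) * p / N := by
    unfold ar
    rw [sum_mult _ hp.pos]
    rfl
  have e3 : J th lam 1 N' n' (pb p g) - J th lam p N n g =
      (∑ m ∈ Ioc n' (n' + N'), f m) / N' - (∑ m ∈ Ioc (n / p) ((n + N) / p), f m) * p / N := by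
    unfold J
    rw [e1, e2, pb_nm]
    ring
  rw [e3]
  have fl : ∀ m : ℕ, ((m / p : ℕ) : ℝ) ≤ m / p ∧ (m : ℝ) / p < ((m / p : ℕ) : ℝ) + 1 := by
    intro m
    constructor
    · exact Nat.cast_div_le
    · rw [div_lt_iff₀ hp0]
      have h3 : m < (m / p + 1) * p := by
        rw [add_mul, one_mul]
        have := Nat.div_add_mod m p
        have := Nat.mod_lt m hp.pos
        nlinarith
      exact_mod_cast h3
  rw [abs_le] at h1 h2
  have g1 : |((n' : ℕ) : ℝ) - ((n / p : ℕ) : ℝ)| ≤ 3 := by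
    obtain ⟨f1, f2⟩ := fl n
    have h3 : (n' : ℝ) - n / p ≤ 3 := by
      rw [sub_le_iff_le_add]
      have : (n : ℝ) / p * p = n := by field_simp
      nlinarith [h1.2]
    have h4 : -3 ≤ (n' : ℝ) - n / p := by
      rw [le_sub_iff_add_le]
      have : (n : ℝ) / p * p = n := by field_simp
      nlinarith [h1.1]
    have h5 : ((n' : ℕ) : ℝ) - ((n / p : ℕ) : ℝ) < 4 := by linarith
    have h6 : -3 ≤ ((n' : ℕ) : ℝ) - ((n / p : ℕ) : ℝ) := by linarith
    have h7 : ((n' : ℤ) - ((n / p : ℕ) : ℤ)) < 4 := by exact_mod_cast h5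
    have h8 : -3 ≤ ((n' : ℤ) - ((n / p : ℕ) : ℤ)) := by exact_mod_cast h6
    have h9 : |((n' : ℤ) - ((n / p : ℕ) : ℤ))| ≤ 3 := by rw [abs_le]; omega
    exact_mod_cast h9
  have g2 : |((n' + N' : ℕ) : ℝ) - (((n + N) / p : ℕ) : ℝ)| ≤ 6 := by
    obtain ⟨f1, f2⟩ := fl (n + N)
    push_cast at f1 f2
    have h0 : ((n : ℝ) + N) / p * p = n + N := by field_simp
    have h3 : (n' : ℝ) + N' - ((n : ℝ) + N) / p ≤ 6 := by
      rw [sub_le_iff_le_add]
      nlinarith [h1.2, h2.2]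
    have h4 : -6 ≤ (n' : ℝ) + N' - ((n : ℝ) + N) / p := by
      rw [le_sub_iff_add_le]
      nlinarith [h1.1, h2.1]
    have h5 : ((n' + N' : ℕ) : ℝ) - (((n + N) / p : ℕ) : ℝ) < 7 := by push_cast; linarith
    have h6 : -6 ≤ ((n' + N' : ℕ) : ℝ) - (((n + N) / p : ℕ) : ℝ) := by push_cast; linarith
    have h7 : (((n' + N' : ℕ) : ℤ) - (((n + N) / p : ℕ) : ℤ)) < 7 := by exact_mod_cast h5
    have h8 : -6 ≤ (((n' + N' : ℕ) : ℤ) - (((n + N) / p : ℕ) : ℤ)) := by exact_mod_cast h6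
    have h9 : |(((n' + N' : ℕ) : ℤ) - (((n + N) / p : ℕ) : ℤ))| ≤ 6 := by rw [abs_le]; omega
    exact_mod_cast h9
  have s1 := sum_Ioc_two hfb (Nat.le_add_right n' N')
    (Nat.div_le_div_right (c := p) (Nat.le_add_right n N))
  have s2 : |∑ m ∈ Ioc n' (n' + N'), f m| ≤ N' * b := by
    have := sum_Ioc_le hfb (Nat.le_add_right n' N')
    push_cast at this
    linarith
  set A := ∑ m ∈ Ioc n' (n' + N'), f m with hA
  set B := ∑ m ∈ Ioc (n / p) ((n + N) / p), f m with hB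
  have s3 : |A - B| ≤ 9 * b := by
    refine s1.trans (mul_le_mul_of_nonneg_right (by linarith) hb0)
  have e4 : A / N' - B * p / N = (N - p * N') / (N * N') * A + p / N * (A - B) := by
    field_simp
    ring
  rw [e4]
  refine (abs_add_le _ _).trans ?_
  rw [abs_mul, abs_mul, abs_div, abs_of_pos (mul_pos hNr hNr'), abs_of_pos (div_pos hp0 hNr)]
  have s4 : |(N : ℝ) - p * N'| ≤ 3 * p := by
    rw [abs_le]; constructor <;> linarith [h2.1, h2.2]
  have s5 : |(N : ℝ) - p * N'| / (N * N') * |A| ≤ 3 * p / (N * N') * (N' * b) := by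
    apply mul_le_mul (div_le_div_of_nonneg_right s4 (by positivity)) s2 (abs_nonneg _)
      (by positivity)
  have s6 : 3 * (p : ℝ) / (N * N') * (N' * b) = 3 * b * (p / N) := by
    field_simp
  have s7 : (p : ℝ) / N * |A - B| ≤ p / N * (9 * b) :=
    mul_le_mul_of_nonneg_left s3 (by positivity)
  linarith

theorem pf_EJ (hRB : T_RB) (hEW : T_EW) (hSN : T_SN) : T_EJ := by
  intro th η K r hth hth1 hη hK
  obtain ⟨X₁, hX₁⟩ := hEW K r hK
  obtain ⟨X₂, hX₂⟩ := hSN K r (96 / th ^ 2 / (η / 2) + 1) hK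
  refine ⟨max X₁ X₂, ?_⟩
  intro S k₁ lam t p hS hX hl ht ht' hp
  have hB1 : B1 lam := by
    intro n
    rcases hl.pm n with h | h <;> rw [h] <;> norm_num
  have hpp : p.Prime := by
    unfold Par.Q Pr at hp
    exact (Finset.mem_filter.1 hp).2
  obtain ⟨w1, w2⟩ := hX₁ S k₁ t p hS ((le_max_left _ _).trans hX) ht ht' hp
  obtain ⟨-, -, -, -, -, hI, -, hQ⟩ := hX₂ S k₁ hS ((le_max_right _ _).trans hX)
  have hA1 : (0 : ℝ) < 96 / th ^ 2 / (η / 2) := by positivity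
  have hN : 1 ≤ Nt S t := by
    have h := (hI t ht).1
    have h2 : (1 : ℝ) ≤ (Nt S t : ℝ) := by linarith
    exact_mod_cast h2
  have hN' : 1 ≤ Nt S (t - S.l p) := by
    have h := (hI _ ht').1
    have h2 : (1 : ℝ) ≤ (Nt S (t - S.l p) : ℝ) := by linarith
    exact_mod_cast h2
  have hpN : (96 / th ^ 2 / (η / 2) + 1) * p ≤ Nt S t := by
    obtain ⟨i, hi, hpi⟩ := hQ p hp
    have h1 := (hI t ht).2.2.2.2.2.2 i hi
    have h2 : p ≤ 2 ^ lv S.X i := by
      unfold QQ at hpi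
      have h3 := (Finset.mem_Ioc.1 (Finset.mem_filter.1 hpi).1).2
      exact h3.trans (Nat.pow_le_pow_right (by norm_num) (Nat.div_le_self _ _))
    have h3 : (p : ℝ) ≤ 2 ^ lv S.X i := by exact_mod_cast h2
    exact (mul_le_mul_of_nonneg_left h3 (by positivity)).trans h1
  have hNr : (0 : ℝ) < Nt S t := by exact_mod_cast hN
  have hp0 : (0 : ℝ) < p := by exact_mod_cast hpp.pos
  have small : 12 * (8 / th ^ 2) * ((p : ℝ) / Nt S t) ≤ η / 2 := by
    have h1 : 96 / th ^ 2 / (η / 2) * p ≤ Nt S t := by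
      refine le_trans (mul_le_mul_of_nonneg_right ?_ hp0.le) hpN
      linarith
    have h2 : 12 * (8 / th ^ 2) * ((p : ℝ) / Nt S t) =
        (96 / th ^ 2 / (η / 2) * p) * (η / 2) / Nt S t := by
      field_simp
      ring
    rw [h2, div_le_iff₀ hNr]
    nlinarith
  have first : ∀ g : Ex, g.nm ≤ 2 / th →
      |J th lam 1 (Nt S (t - S.l p)) (S.n (t - S.l p)) (pb p g) -
        J th lam p (Nt S t) (S.n t) g| ≤ η / 2 := by
    intro g hg
    have hnm : 0 ≤ g.nm := Finset.sum_nonneg fun i _ => norm_nonneg _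
    have hb : ∀ m, |jj lam g m| ≤ 8 / th ^ 2 := by
      intro m
      have h1 := ((hRB th lam 1 (Nt S t) (S.n t) hth hB1 le_rfl hN).2.2.2.2.2.2 g m).2
      refine h1.trans ?_
      have h2 : g.nm ^ 2 ≤ (2 / th) ^ 2 := pow_le_pow_left₀ hnm hg 2
      have h3 : 2 / th ≤ 2 / th ^ 2 := by
        apply div_le_div_of_nonneg_left (by norm_num) (by positivity)
        nlinarith
      have h4 : (2 / th) ^ 2 = 4 / th ^ 2 := by
        field_simp
        norm_num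
      have h5 : 8 / th ^ 2 = 2 * (2 / th ^ 2) + 4 / th ^ 2 := by ring
      rw [h5]
      linarith
    exact (core hl hpp hN hN' hb w1 w2).trans small
  refine ⟨fun g hg => (first g hg).trans (by linarith), ?_⟩
  obtain ⟨-, -, -, -, b5, b6, -⟩ := hRB th lam 1 (Nt S (t - S.l p)) (S.n (t - S.l p)) hth hB1
    le_rfl hN'
  obtain ⟨bd, -⟩ := hRB th lam p (Nt S t) (S.n t) hth hB1 hpp.one_le hN
  obtain ⟨g', h1, h2⟩ := b5 (min (η / 2) 1) (lt_min (by positivity) one_pos)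
  have h3 : g'.nm ≤ 2 / th := b6 g' hN' (by
    have := min_le_right (η / 2) (1 : ℝ)
    linarith)
  set g : Ex := ⟨g'.k, fun i => - g'.c i, fun i => g'.a i / p⟩ with hg
  have hpb : pb p g = g' := by
    rw [hg]
    unfold pb
    cases g' with
    | mk k c a =>
      simp only [neg_neg, Ex.mk.injEq, true_and]
      funext i
      field_simp
  have hnm : g.nm ≤ 2 / th := by
    rw [← pb_nm p g, hpb]
    exact h3
  have h4 := first g hnm
  rw [hpb] at h4
  have h5 : J th lam p (Nt S t) (S.n t) g ≤ En th lam p (Nt S t) (S.n t) := le_ciSup bd g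
  unfold df at h1
  have h6 := min_le_left (η / 2) (1 : ℝ)
  have h7 := (abs_le.1 h4).2
  linarith

end Pool.Agent.H56.E.H80.G3
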